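import Pool.Agent.helper69.MQ.Stmt

set_option autoImplicit false

/-!
# Q-points and sparse sets
-/

namespace Pool.Agent.helper69.MQ

open Filter

/-- a monotone majorant which is larger than the identity -/
def maj (h : ℕ → ℕ) : ℕ → ℕ
  | 0 => h 0 + 1
  | n + 1 => max (maj h n) (h (n + 1)) + 1

theorem maj_ge (h : ℕ → ℕ) (n : ℕ) : h n ≤ maj h n := by
  cases n with
  | zero => exact Nat.le_succ _
  | succ n => exact (le_max_right _ _).trans (Nat.le_succ _)

theorem maj_lt (h : ℕ → ℕ) (n : ℕ) : maj h n < maj h (n + 1) :=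
  Nat.lt_succ_of_le (le_max_left _ _)

theorem maj_mono (h : ℕ → ℕ) : StrictMono (maj h) := strictMono_nat_of_lt_succ (maj_lt h)

theorem maj_gt (h : ℕ → ℕ) (n : ℕ) : n < maj h n := by
  induction n with
  | zero => exact Nat.succ_pos _
  | succ n ih => exact lt_of_le_of_lt ih (maj_lt h n)

/-- the endpoints of the intervals -/
def pts (h : ℕ → ℕ) : ℕ → ℕ
  | 0 => 0
  | k + 1 => maj h (pts h k)

theorem pts_mono (h : ℕ → ℕ) : StrictMono (pts h) :=
  strictMono_nat_of_lt_succ fun _ => maj_gt h _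

theorem exists_piece (h : ℕ → ℕ) (n : ℕ) : ∃ k, pts h k ≤ n ∧ n < pts h (k + 1) := by
  classical
  have h1 : ∃ k, n < pts h k := ⟨n + 1, lt_of_lt_of_le (Nat.lt_succ_self n) ((pts_mono h).id_le _)⟩
  have h2 : Nat.find h1 ≠ 0 := by
    intro h3
    have := Nat.find_spec h1
    rw [h3] at this
    exact Nat.not_lt_zero _ this
  obtain ⟨k, hk⟩ := Nat.exists_eq_succ_of_ne_zero h2
  refine ⟨k, ?_, ?_⟩
  · exact not_lt.mp (Nat.find_min h1 (by omega))
  · have := Nat.find_spec h1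
    rwa [hk] at this

/-- **Sparse sets in a Q-point.** -/
theorem QPoint.sparse {U : Ultrafilter ℕ} (hq : QPoint U) (h : ℕ → ℕ) :
    ∃ A ∈ U, ∀ n ∈ A, ∀ n' ∈ A, n < n' → h n ≤ n' := by
  choose f hf1 hf2 using exists_piece h
  have hfin : ∀ k, (f ⁻¹' {k}).Finite := by
    intro k
    refine (Set.finite_lt_nat (pts h (k + 1))).subset ?_
    intro n hn
    have h1 : f n = k := hn
    show n < pts h (k + 1)
    rw [← h1]
    exact hf2 n
  obtain ⟨A, hA, hinj⟩ := hq f hfin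
  have key : ∀ B : Set ℕ, B ⊆ A → (∀ n ∈ B, ∀ n' ∈ B, f n < f n' → f n + 2 ≤ f n') →
      ∀ n ∈ B, ∀ n' ∈ B, n < n' → h n ≤ n' := by
    intro B hBA hB n hn n' hn' hlt
    have h1 : f n < f n' := by
      rcases lt_trichotomy (f n) (f n') with h2 | h2 | h2
      · exact h2
      · exact absurd (hinj (hBA hn) (hBA hn') h2) hlt.ne
      · have h3 := hf2 n'
        have h4 : pts h (f n' + 1) ≤ pts h (f n) := (pts_mono h).monotone h2
        have h5 := hf1 n
        omega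
    have h2 := hB n hn n' hn' h1
    calc h n ≤ maj h n := maj_ge h n
      _ ≤ maj h (pts h (f n + 1)) := (maj_mono h).monotone (hf2 n).le
      _ = pts h (f n + 2) := rfl
      _ ≤ pts h (f n') := (pts_mono h).monotone h2
      _ ≤ n' := hf1 n'
  by_cases hev : {n | Even (f n)} ∈ U
  · refine ⟨A ∩ {n | Even (f n)}, inter_mem hA hev, key _ Set.inter_subset_left ?_⟩
    rintro n ⟨_, h1⟩ n' ⟨_, h2⟩ hlt
    obtain ⟨a, ha⟩ := h1
    obtain ⟨b, hb⟩ := h2
    omega
  · have hodd := Ultrafilter.compl_mem_iff_notMem.mpr hev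
    refine ⟨A ∩ {n | Even (f n)}ᶜ, inter_mem hA hodd, key _ Set.inter_subset_left ?_⟩
    rintro n ⟨_, h1⟩ n' ⟨_, h2⟩ hlt
    have h1' : Odd (f n) := Nat.not_even_iff_odd.mp h1
    have h2' : Odd (f n') := Nat.not_even_iff_odd.mp h2
    obtain ⟨a, ha⟩ := h1'
    obtain ⟨b, hb⟩ := h2'
    omega

end Pool.Agent.helper69.MQ
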