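import Pool.Agent.helper69.MQ.Core
import Pool.Agent.helper81.MU.Baire2
import Pool.Agent.helper47.MU.RhoBaire

set_option autoImplicit false

/-!
# Baire measurable lifts of endomorphisms, for Q-points
-/

namespace Pool.Agent.helper69.MQ

open Finset Filter Topology
open Equiv (Perm)
open Pool.Agent.helper4.UP
open Pool.Agent.helper47.MU (exists_rho_baire)

section

variable {U : Ultrafilter ℕ} (hU : (U : Filter ℕ) ≤ atTop) (hq : QPoint U)

include hU

theorem cl_of_tail {x y : PP} {m : ℕ} (h : ∀ l, m ≤ l → x l = y l) :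
    cl (U : Filter ℕ) x = cl (U : Filter ℕ) y :=
  cl_congr_mem (A := {l | m ≤ l}) (hU (eventually_ge_atTop m)) fun l hl => h l hl

include hq

theorem inner_of_comeagre (φ : GU (U : Filter ℕ) →* GU (U : Filter ℕ)) (hφ : ∃ x, φ x ≠ 1)
    (Φ : PP → PP) (hΦ1 : ∀ (n : ℕ) (σ : Perm (Fin n)), @BaireMeasurableSet PP topPP {x | Φ x n = σ})
    (hΦ : {x : PP | φ (cl (U : Filter ℕ) x) = cl (U : Filter ℕ) (Φ x)} ∈ @residual PP topPP) :
    Inner φ := by
  classical
  let t : ∀ n : ℕ, TopologicalSpace (Perm (Fin n)) := fun _ => ⊥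
  have : ∀ n : ℕ, DiscreteTopology (Perm (Fin n)) := fun _ => ⟨rfl⟩
  obtain ⟨A, hA, s, hC, hwin⟩ := Pool.Agent.helper81.MU.baire_filler'
    (X := fun n => Perm (Fin n)) (Y := fun n => Perm (Fin n)) U Φ hΦ1 _ hΦ
  choose m hm using hwin
  obtain ⟨B, hB, hsp⟩ := hq.sparse m
  have hAB : A ∩ B ∈ U := inter_mem hA hB
  refine core U hU φ hφ (A ∩ B) hAB s Φ {z | ∀ l ∉ A ∩ B, z l = s l} m ?_ ?_
    (fun n _ => if n ∈ A ∩ B then Set.univ else {s n}) ?_ ?_ ?_ ?_ ?_ ?_
  · intro n x hx y hy hxy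
    exact hm n x y hxy x y (fun _ _ => rfl) (fun l hl => hx l fun h => hl h.1)
      (fun _ _ => rfl) (fun l hl => hy l fun h => hl h.1)
  · intro n hn n' hn' hlt
    exact hsp n hn.2 n' hn'.2 hlt
  · intro n x y _
    rfl
  · intro n x
    split_ifs
    · exact Set.univ_nonempty
    · exact Set.singleton_nonempty _
  · intro n hn x
    exact if_neg hn
  · intro ε hε
    filter_upwards [hAB] with n hn x
    rw [if_pos hn, Set.ncard_univ, Nat.card_eq_fintype_card, Fintype.card_perm, Fintype.card_fin]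
    have h1 : Real.exp (-(ε * n)) ≤ 1 := by
      rw [Real.exp_le_one_iff]
      have : 0 ≤ ε * (n : ℝ) := by positivity
      linarith
    exact mul_le_of_le_one_left (Nat.cast_nonneg _) h1
  · intro σ hσ l hl
    have h1 := hσ l
    rw [if_neg hl] at h1
    exact h1
  · intro x hx
    exact hC x fun l hl => hx l fun h => hl h.1

theorem inner_of_baireOn (φ : GU (U : Filter ℕ) →* GU (U : Filter ℕ)) (hφ : ∃ x, φ x ≠ 1)
    (h : BaireOn φ) : Inner φ := by
  obtain ⟨Φ, C, hΦ, hC, hC0, hα⟩ := h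
  let t : ∀ n : ℕ, TopologicalSpace (Perm (Fin n)) := fun _ => ⊥
  have : ∀ n : ℕ, DiscreteTopology (Perm (Fin n)) := fun _ => ⟨rfl⟩
  obtain ⟨ρ, hc, ho, ⟨m, hm⟩, hres⟩ := exists_rho_baire
    (X := fun n => Perm (Fin n)) C hC hC0
  refine inner_of_comeagre hU hq φ hφ (Φ ∘ ρ) (fun n σ => ?_) ?_
  · exact (hΦ n σ).preimage hc ho
  · refine mem_of_superset hres fun x hx => ?_
    show φ (cl (U : Filter ℕ) x) = cl (U : Filter ℕ) (Φ (ρ x))
    rw [← hα (ρ x) hx, cl_of_tail hU (fun l hl => (hm x l hl))]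

end

end Pool.Agent.helper69.MQ
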