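import Pool.Agent.helper69.MQ.QP
import Pool.Agent.helper4.UP.CFin

set_option autoImplicit false

/-!
# From windows to lifts whose `n`-th coordinate depends on the coordinates up to `n`
-/

namespace Pool.Agent.helper69.MQ

open Finset Filter Topology
open Equiv (Perm)
open Pool.Agent.helper4.UP

theorem cl_congr_mem {U : Ultrafilter ℕ} {x y : PP} {A : Set ℕ} (hA : A ∈ U)
    (h : ∀ n ∈ A, x n = y n) : cl (U : Filter ℕ) x = cl (U : Filter ℕ) y := by
  rw [cl_eq_iff']
  intro ε hε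
  filter_upwards [hA] with n hn
  rw [h n hn, D_self, Nat.cast_zero]
  positivity

/-- the sequences of `K` which agree with `x` up to `n` -/
def ext (A : Set ℕ) (s : PP) (K : Set PP) (n : ℕ) (x : PP) : Set PP :=
  {z | z ∈ K ∧ (∀ l ∉ A, z l = s l) ∧ ∀ l ≤ n, z l = x l}

open Classical in
/-- the value of `F` at a chosen point of a set -/
noncomputable def val (F : PP → PP) (n : ℕ) (Q : Set PP) : Perm (Fin n) :=
  if h : Q.Nonempty then F h.some n else 1

theorem core (U : Ultrafilter ℕ) (hU : (U : Filter ℕ) ≤ atTop)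
    (φ : GU (U : Filter ℕ) →* GU (U : Filter ℕ)) (hφ : ∃ x, φ x ≠ 1)
    (A : Set ℕ) (hA : A ∈ U) (s : PP) (F : PP → PP) (K : Set PP) (m : ℕ → ℕ)
    (hm : ∀ n, ∀ x ∈ K, ∀ y ∈ K, (∀ l, l < m n → x l = y l) → F x n = F y n)
    (hsp : ∀ n ∈ A, ∀ n' ∈ A, n < n' → m n ≤ n')
    (S : ∀ n : ℕ, PP → Set (Perm (Fin n)))
    (hSd : ∀ n x y, (∀ l, l < n → x l = y l) → S n x = S n y)
    (hSn : ∀ n x, (S n x).Nonempty) (hSs : ∀ n ∉ A, ∀ x, S n x = {s n})
    (hSr : ∀ ε : ℝ, 0 < ε → ∀ᶠ n : ℕ in (U : Filter ℕ), ∀ x,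
      Real.exp (-(ε * n)) * (Nat.factorial n : ℝ) ≤ ((S n x).ncard : ℝ))
    (hK : ∀ σ : PP, (∀ n, σ n ∈ S n σ) → σ ∈ K)
    (hKF : ∀ x ∈ K, φ (cl (U : Filter ℕ) x) = cl (U : Filter ℕ) (F x)) :
    ∃ g : GU (U : Filter ℕ), ∀ x, φ x = g * x * g⁻¹ := by
  refine main2 U hU φ hφ 1 one_pos (fun n => (univ : Finset (Fin n))) ?_ S hSd hSn ?_ ?_
    (fun n x => val F n (ext A s K n x)) ?_ ?_
  · refine Eventually.of_forall fun n => ?_
    rw [card_univ, Fintype.card_fin, one_mul]
  · refine Eventually.of_forall fun n x σ _ i hi => ?_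
    exact absurd (mem_univ i) hi
  · intro ε hε
    filter_upwards [hSr ε hε] with n hn x
    rw [card_univ, Fintype.card_fin]
    exact hn x
  · intro n x y hxy
    show val F n (ext A s K n x) = val F n (ext A s K n y)
    have h1 : ext A s K n x = ext A s K n y := by
      ext z
      constructor
      · rintro ⟨h1, h2, h3⟩
        exact ⟨h1, h2, fun l hl => (h3 l hl).trans (hxy l hl)⟩
      · rintro ⟨h1, h2, h3⟩
        exact ⟨h1, h2, fun l hl => (h3 l hl).trans (hxy l hl).symm⟩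
    rw [h1]
  · intro σ hσ
    have hσK := hK σ hσ
    have hσs : ∀ l ∉ A, σ l = s l := by
      intro l hl
      have h1 := hσ l
      rw [hSs l hl] at h1
      exact h1
    rw [hKF σ hσK]
    apply cl_congr_mem hA
    intro n hn
    have hne : (ext A s K n σ).Nonempty := ⟨σ, hσK, hσs, fun _ _ => rfl⟩
    show F σ n = val F n (ext A s K n σ)
    unfold val
    rw [dif_pos hne]
    obtain ⟨h1, h2, h3⟩ := hne.some_mem
    refine (hm n _ h1 σ hσK fun l hl => ?_).symm
    by_cases hln : l ≤ n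
    · exact h3 l hln
    · have hlA : l ∉ A := by
        intro hlA
        have := hsp n hn l hlA (not_le.mp hln)
        omega
      rw [h2 l hlA, hσs l hlA]

end Pool.Agent.helper69.MQ
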