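import Pool.Agent.helper69.MQ.Core
import Pool.Agent.helper7.MQ.Lusin
import Pool.Agent.helper34.MQ.Mix
import Pool.Agent.helper86.MQ.Prune

set_option autoImplicit false

/-!
# Haar measurable lifts of endomorphisms, for Q-points
-/

namespace Pool.Agent.helper69.MQ

open Finset Filter Topology MeasureTheory
open Equiv (Perm)
open Pool.Agent.helper4.UP

/-- a slowly decreasing summable sequence -/
noncomputable def dl (n : ℕ) : ℝ := 1 / (4 * ((n : ℝ) + 1) ^ 2)

theorem dl_pos (n : ℕ) : 0 < dl n := by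
  unfold dl
  positivity

theorem dl_sum (N : ℕ) : ∑ n ∈ range N, dl n ≤ 1 / 2 := by
  have h : ∀ N : ℕ, ∑ n ∈ range (N + 1), dl n ≤ 1 / 2 - 1 / (4 * ((N : ℝ) + 1)) := by
    intro N
    induction N with
    | zero => norm_num [dl]
    | succ N ih =>
      rw [sum_range_succ]
      have h1 : dl (N + 1) ≤ 1 / (4 * ((N : ℝ) + 1)) - 1 / (4 * (((N + 1 : ℕ) : ℝ) + 1)) := by
        unfold dl
        push_cast
        have hp : (0 : ℝ) < (N : ℝ) + 1 := by positivity
        have hq : (0 : ℝ) < (N : ℝ) + 1 + 1 := by positivity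
        rw [div_sub_div _ _ (by positivity) (by positivity), div_le_div_iff₀ (by positivity)
          (by positivity)]
        nlinarith [mul_pos hp hq, mul_pos hp hp, mul_pos hq hq]
      linarith
  cases N with
  | zero => norm_num
  | succ N =>
    have h1 := h N
    have h2 : (0 : ℝ) < 1 / (4 * ((N : ℝ) + 1)) := by positivity
    linarith

theorem dl_exp {β ε : ℝ} (hβ : 0 < β) (hε : 0 < ε) :
    ∀ᶠ n : ℕ in atTop, Real.exp (-(ε * n)) ≤ β * dl n := by
  have h1 : Tendsto (fun x : ℝ => x ^ 2 * Real.exp (-ε * x)) atTop (𝓝 0) := by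
    have := Real.tendsto_pow_mul_exp_neg_atTop_nhds_zero 2
    have h2 : Tendsto (fun x : ℝ => ε * x) atTop atTop := tendsto_id.const_mul_atTop hε
    have h3 := (this.comp h2).const_mul (1 / ε ^ 2)
    rw [mul_zero] at h3
    refine h3.congr fun x => ?_
    show 1 / ε ^ 2 * ((ε * x) ^ 2 * Real.exp (-(ε * x))) = x ^ 2 * Real.exp (-ε * x)
    rw [neg_mul]
    field_simp
  have h2 := h1.comp tendsto_natCast_atTop_atTop
  have h3 := h2.eventually (Iio_mem_nhds (show (0 : ℝ) < β / 16 by positivity))
  filter_upwards [h3, eventually_ge_atTop 1] with n hn hn1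
  have hn1' : (1 : ℝ) ≤ n := by exact_mod_cast hn1
  have h4 : (n : ℝ) ^ 2 * Real.exp (-ε * n) < β / 16 := hn
  rw [neg_mul] at h4
  unfold dl
  rw [mul_one_div, le_div_iff₀ (by positivity)]
  have h5 : ((n : ℝ) + 1) ^ 2 ≤ 4 * (n : ℝ) ^ 2 := by nlinarith
  have h6 : 0 < Real.exp (-(ε * n)) := Real.exp_pos _
  nlinarith

theorem inner_of_haarOn {U : Ultrafilter ℕ} (hU : (U : Filter ℕ) ≤ atTop) (hq : QPoint U)
    (φ : GU (U : Filter ℕ) →* GU (U : Filter ℕ)) (hφ : ∃ x, φ x ≠ 1) (h : HaarOn φ) :
    Inner φ := by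
  classical
  obtain ⟨Φ, C, hΦ, hC, hC0, hα⟩ := h
  let t : ∀ n : ℕ, TopologicalSpace (Perm (Fin n)) := fun _ => ⊥
  have : ∀ n : ℕ, DiscreteTopology (Perm (Fin n)) := fun _ => ⟨rfl⟩
  let mp : ∀ n : ℕ, MeasurableSpace (Perm (Fin n)) := fun _ => ⊤
  have : ∀ n : ℕ, MeasurableSingletonClass (Perm (Fin n)) := fun n => ⟨fun _ => trivial⟩
  have hpr : ∀ n : ℕ, IsProbabilityMeasure (Pool.Agent.helper69.MU.uni (Perm (Fin n))) := by
    intro n
    unfold Pool.Agent.helper69.MU.uni
    infer_instance
  have hfin : IsFiniteMeasure haar := by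
    unfold haar
    infer_instance
  obtain ⟨K, hKC, hKc, hK0, hwin⟩ := Pool.Agent.helper7.MQ.exists_lusin
    (X := fun n => Perm (Fin n)) (Y := fun n => Perm (Fin n)) haar Φ hΦ C hC hC0
  choose m hm using hwin
  obtain ⟨A, hA, hsp⟩ := hq.sparse m
  have hKm : MeasurableSet K := hKc.measurableSet
  obtain ⟨s, hs⟩ := Pool.Agent.helper34.MQ.exists_filler (X := fun n => Perm (Fin n)) A K hKm hK0
  have hcont : Continuous fun x : PP => (fun l => if l ∈ A then x l else s l : PP) := by
    refine continuous_pi fun l => ?_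
    by_cases hl : l ∈ A
    · have : (fun x : PP => (if l ∈ A then x l else s l : Perm (Fin l))) = fun x => x l := by
        funext x
        rw [if_pos hl]
      rw [this]
      exact continuous_apply l
    · have : (fun x : PP => (if l ∈ A then x l else s l : Perm (Fin l))) = fun _ => s l := by
        funext x
        rw [if_neg hl]
      rw [this]
      exact continuous_const
  obtain ⟨β, S, hβ, hSd, hSn, hSs, hSr, hSK⟩ := Pool.Agent.helper86.MQ.exists_pruned
    (X := fun n => Perm (Fin n)) A {x | (fun l => if l ∈ A then x l else s l) ∈ K}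
    (hKc.preimage hcont) hs s (by
      intro x y hxy
      have : (fun l => if l ∈ A then x l else s l : PP) = fun l => if l ∈ A then y l else s l := by
        funext l
        by_cases hl : l ∈ A
        · rw [if_pos hl, if_pos hl, hxy l hl]
        · rw [if_neg hl, if_neg hl]
      show (fun l => if l ∈ A then x l else s l : PP) ∈ K ↔
        (fun l => if l ∈ A then y l else s l : PP) ∈ K
      rw [this]) dl dl_pos dl_sum
  refine core U hU φ hφ A hA s Φ K m hm hsp S hSd hSn hSs ?_ ?_ fun x hx => hα x (hKC hx)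
  · intro ε hε
    filter_upwards [hA, hU (dl_exp hβ hε)] with n hn hn2 x
    have h1 := hSr n hn x
    rw [Fintype.card_perm, Fintype.card_fin] at h1
    exact (mul_le_mul_of_nonneg_right hn2 (Nat.cast_nonneg _)).trans h1
  · intro σ hσ
    have h1 := hSK σ hσ
    have h2 : (fun l => if l ∈ A then σ l else s l : PP) = σ := by
      funext l
      by_cases hl : l ∈ A
      · rw [if_pos hl]
      · rw [if_neg hl]
        have h3 := hσ l
        rw [hSs l hl] at h3
        exact h3.symm
    have h4 : (fun l => if l ∈ A then σ l else s l : PP) ∈ K := h1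
    rwa [h2] at h4

end Pool.Agent.helper69.MQ
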