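import Pool.Agent.helper69.MQ.BaireQ
import Pool.Agent.helper69.MQ.HaarQ

set_option autoImplicit false

/-!
# Measurable lifts of endomorphisms, for Q-points
-/

namespace Pool.Agent.helper69.MQ

open Finset Filter Topology MeasureTheory
open Equiv (Perm)
open Pool.Agent.helper4.UP

theorem le_atTop_of_nonprincipal {U : Ultrafilter ℕ} (hU : ∀ n : ℕ, ({n} : Set ℕ) ∉ U) :
    (U : Filter ℕ) ≤ atTop := by
  rcases Ultrafilter.le_cofinite_or_eq_pure U with h | ⟨a, h⟩
  · exact h.trans Nat.cofinite_eq_atTop.le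
  · exfalso
    apply hU a
    rw [h]
    exact Set.mem_singleton a

variable {U : Filter ℕ}

theorem Inner.baireOn {φ : GU U →* GU U} (h : Inner φ) : BaireOn φ := by
  obtain ⟨g, hg⟩ := h
  obtain ⟨t, rfl⟩ := cl_surj g
  let tt : ∀ n : ℕ, TopologicalSpace (Perm (Fin n)) := fun _ => ⊥
  have : ∀ n : ℕ, DiscreteTopology (Perm (Fin n)) := fun _ => ⟨rfl⟩
  refine ⟨fun x n => t n * x n * (t n)⁻¹, Set.univ, fun n σ => ?_, ?_, ?_, fun x _ => ?_⟩
  · have h1 : IsOpen {x : PP | t n * x n * (t n)⁻¹ = σ} := by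
      have h2 : {x : PP | t n * x n * (t n)⁻¹ = σ} =
        (fun x : PP => x n) ⁻¹' {τ | t n * τ * (t n)⁻¹ = σ} := rfl
      rw [h2]
      exact (isOpen_discrete _).preimage (continuous_apply n)
    exact h1.baireMeasurableSet
  · exact isOpen_univ.baireMeasurableSet
  · intro h1
    have h2 : (∅ : Set PP) ∈ residual PP := by
      have : (Set.univ : Set PP)ᶜ ∈ residual PP := h1
      rwa [Set.compl_univ] at this
    have h3 : Dense (∅ : Set PP) := dense_of_mem_residual h2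
    have h4 := h3.nonempty
    exact Set.not_nonempty_empty h4
  · rw [hg]
    rfl

theorem Inner.haarOn {φ : GU U →* GU U} (h : Inner φ) : HaarOn φ := by
  obtain ⟨g, hg⟩ := h
  obtain ⟨t, rfl⟩ := cl_surj g
  letI mp : ∀ n : ℕ, MeasurableSpace (Perm (Fin n)) := fun _ => ⊤
  refine ⟨fun x n => t n * x n * (t n)⁻¹, Set.univ, fun n σ => ?_, ?_, ?_, fun x _ => ?_⟩
  · have h1 : MeasurableSet {x : PP | t n * x n * (t n)⁻¹ = σ} := by
      have h2 : {x : PP | t n * x n * (t n)⁻¹ = σ} =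
        (fun x : PP => x n) ⁻¹' {τ | t n * τ * (t n)⁻¹ = σ} := rfl
      rw [h2]
      exact (measurable_pi_apply n) trivial
    exact h1.nullMeasurableSet
  · exact MeasurableSet.univ.nullMeasurableSet
  · have : IsProbabilityMeasure haar := by
      unfold haar
      have : ∀ n : ℕ, IsProbabilityMeasure (@Pool.Agent.helper69.MU.uni (Perm (Fin n)) _ _ ⊤) := by
        intro n
        unfold Pool.Agent.helper69.MU.uni
        infer_instance
      infer_instance
    rw [measure_univ]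
    exact one_ne_zero
  · rw [hg]
    rfl

/-- **Main theorem.** -/
theorem main4 (U : Ultrafilter ℕ) (hU : ∀ n : ℕ, ({n} : Set ℕ) ∉ U) (hq : QPoint U)
    (φ : GU (U : Filter ℕ) →* GU (U : Filter ℕ)) (hφ : ∃ x, φ x ≠ 1) :
    (Inner φ ↔ BaireOn φ) ∧ (Inner φ ↔ HaarOn φ) :=
  ⟨⟨Inner.baireOn, inner_of_baireOn (le_atTop_of_nonprincipal hU) hq φ hφ⟩,
    ⟨Inner.haarOn, inner_of_haarOn (le_atTop_of_nonprincipal hU) hq φ hφ⟩⟩

end Pool.Agent.helper69.MQ
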