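import Pool.Agent.helper69.MU.Uni
import Pool.Agent.helper4.UP.Defs

set_option autoImplicit false

/-!
# Lifts of endomorphisms: definitions
-/

namespace Pool.Agent.helper69.MQ

open Filter MeasureTheory
open Equiv (Perm)
open Pool.Agent.helper4.UP

/-- `U` is a Q-point: every finite-to-one function is one-to-one on a set of `U` -/
def QPoint (U : Ultrafilter ℕ) : Prop :=
  ∀ f : ℕ → ℕ, (∀ k, (f ⁻¹' {k}).Finite) → ∃ A ∈ U, Set.InjOn f A

/-- the product of all groups `Sym(n)` -/
abbrev PP : Type := ∀ n : ℕ, Perm (Fin n)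

/-- the product of the discrete topologies on the product of all groups `Sym(n)` -/
abbrev topPP : TopologicalSpace PP :=
  @Pi.topologicalSpace ℕ (fun n => Perm (Fin n)) fun _ => ⊥

/-- the product of the discrete `σ`-algebras on the product of all groups `Sym(n)` -/
abbrev measPP : MeasurableSpace PP :=
  @MeasurableSpace.pi ℕ (fun n => Perm (Fin n)) fun _ => ⊤

/-- the Haar probability measure of the product of all groups `Sym(n)`: the product of the uniform
measures -/
noncomputable def haar : @Measure PP measPP :=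
  @Measure.infinitePi ℕ (fun n => Perm (Fin n)) (fun _ => ⊤)
    (fun n => @Pool.Agent.helper69.MU.uni (Perm (Fin n)) _ _ ⊤)

/-- `φ` is the conjugation by an element of the ultraproduct -/
def Inner {U : Filter ℕ} (φ : GU U →* GU U) : Prop :=
  ∃ g : GU U, ∀ x, φ x = g * x * g⁻¹

/-- there are a Baire measurable map `Φ` of the product of all `Sym(n)` into itself and a
non-meagre set `C` with the property of Baire such that `φ [x] = [Φ x]` for all `x` in `C` -/
def BaireOn {U : Filter ℕ} (φ : GU U →* GU U) : Prop :=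
  ∃ (Φ : PP → PP) (C : Set PP),
    (∀ (n : ℕ) (σ : Perm (Fin n)), @BaireMeasurableSet PP topPP {x | Φ x n = σ}) ∧
    @BaireMeasurableSet PP topPP C ∧ ¬ @IsMeagre PP topPP C ∧
    ∀ x ∈ C, φ (cl U x) = cl U (Φ x)

/-- there are a Haar measurable map `Φ` of the product of all `Sym(n)` into itself and a Haar
measurable set `C` of positive Haar measure such that `φ [x] = [Φ x]` for all `x` in `C` -/
def HaarOn {U : Filter ℕ} (φ : GU U →* GU U) : Prop :=
  ∃ (Φ : PP → PP) (C : Set PP),
    (∀ (n : ℕ) (σ : Perm (Fin n)), @NullMeasurableSet PP measPP {x | Φ x n = σ} haar) ∧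
    @NullMeasurableSet PP measPP C haar ∧ haar C ≠ 0 ∧
    ∀ x ∈ C, φ (cl U x) = cl U (Φ x)

end Pool.Agent.helper69.MQ
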